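import Mathlib
import Pool.Agent.MP06ac62.G

open Filter Topology

namespace Pool.Agent.Results.MP_06ac62_an.RatioLimit

/-- The maximum modulus `M(r,f)`: the maximum of `|f|` on the circle `|z| = r`. -/
noncomputable def maxMod (f : ℂ → ℂ) (r : ℝ) : ℝ := ⨆ z : Metric.sphere (0:ℂ) r, ‖f z‖

/-- The minimum modulus `m_0(r,f)`: the minimum of `|f|` on the circle `|z| = r`. -/
noncomputable def minMod (f : ℂ → ℂ) (r : ℝ) : ℝ := ⨅ z : Metric.sphere (0:ℂ) r, ‖f z‖

/-- `a_f(r) = log M(r,f)`. -/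
noncomputable def logM (f : ℂ → ℂ) (r : ℝ) : ℝ := Real.log (maxMod f r)

/-- `b_f(r) = log m_0(r,f)` in the extended reals, with `log 0 = -∞`. -/
noncomputable def logMin (f : ℂ → ℂ) (r : ℝ) : EReal := ENNReal.log (ENNReal.ofReal (minMod f r))

/-- The lower order of `f`: the lower limit of `log a_f(r) / log r` as `r → ∞`. -/
noncomputable def lowerOrder (f : ℂ → ℂ) : EReal :=
  liminf (fun r : ℝ => ((Real.log (logM f r) / Real.log r : ℝ) : EReal)) atTop

/-- `Λ(f)`: the upper limit of `b_f(r) / a_f(r)` as `r → ∞`. -/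
noncomputable def Lam (f : ℂ → ℂ) : EReal :=
  limsup (fun r : ℝ => logMin f r / (logM f r : EReal)) atTop

/-- `C(λ)`: the infimum of `Λ(f)` over the non-constant entire functions `f` of lower order `λ`. -/
noncomputable def C (lam : ℝ) : EReal :=
  sInf {L : EReal | ∃ f : ℂ → ℂ, Differentiable ℂ f ∧ (¬ ∃ c, ∀ z, f z = c) ∧
    lowerOrder f = (lam : EReal) ∧ L = Lam f}

/-- `C(λ) / log λ` tends to `-2` as `λ → ∞`; in other words both its lower and its upper limit
are `-2`. -/
theorem result :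
    Tendsto (fun lam : ℝ => C lam / (Real.log lam : EReal)) atTop (𝓝 (-2 : EReal)) :=
  MinMod.G.C_over_log_tendsto

end Pool.Agent.Results.MP_06ac62_an.RatioLimit
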